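import Pool.Agent.D0H61.CP.Stm
import Pool.Agent.D0H35.CC.Geo

/-!
Module GEO2 of project CP.
-/

set_option autoImplicit false

namespace Pool.Agent.D0H35.CP

open Filter Topology MeasureTheory Finset Pool.Agent.D0H61.CC Pool.Agent.D0H61.CP
open Pool.Agent.D0H35.CC

theorem t_GEO2 : S_GEO2 := by
  classical
  intro hPW hCNT h hh κ γ a b R hκ0 hκ1 hγ hR
  have hR0 : 0 < R := by linarith
  set Rk := R ^ |κ| with hRk
  have hRk0 : 0 < Rk := Real.rpow_pos_of_pos hR0 _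
  set Q := R + |κ| + |1 - κ| + |1 / 2 - (a : ℝ)| + |1 / 2 - (b : ℝ)| + γ * Rk + Rk / γ with hQd
  have q1 := abs_nonneg κ
  have q2 := abs_nonneg (1 - κ)
  have q3 := abs_nonneg (1 / 2 - (a : ℝ))
  have q4 := abs_nonneg (1 / 2 - (b : ℝ))
  have q5 : 0 < γ * Rk := by positivity
  have q6 : 0 < Rk / γ := by positivity
  have hQR : R ≤ Q := by rw [hQd]; linarith
  have hQκ : |κ| ≤ Q := by rw [hQd]; linarith
  have hQκ' : |1 - κ| ≤ Q := by rw [hQd]; linarith
  have hQa : |1 / 2 - (a : ℝ)| ≤ Q := by rw [hQd]; linarith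
  have hQb : |1 / 2 - (b : ℝ)| ≤ Q := by rw [hQd]; linarith
  have hQ5 : γ * Rk ≤ Q := by rw [hQd]; linarith
  have hQ6 : Rk / γ ≤ Q := by rw [hQd]; linarith
  clear_value Q
  have hQ : 1 ≤ Q := by linarith
  have hQ0 : 0 < Q := by linarith
  have hQ3 : 1 ≤ Q ^ 3 := one_le_pow₀ hQ
  have hQ4 : 1 ≤ Q ^ 4 := one_le_pow₀ hQ
  obtain ⟨c₀, hc₀, hcnt⟩ := hCNT h hh κ hκ0 hκ1 (|Real.log γ| + 1 + 4 * R)
    (by have := abs_nonneg (Real.log γ); linarith)
  set δ := 1 / (100 * Q) with hδ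
  set d := 1 / (100 * Q ^ 3) with hd
  have hδ0 : 0 < δ := by positivity
  have hδ1 : δ ≤ 1 := by rw [hδ, div_le_one (by positivity)]; linarith
  have hd0 : 0 < d := by positivity
  have hd1 : d ≤ 1 / 100 := one_div_le_one_div_of_le (by norm_num) (by linarith)
  refine ⟨d * c₀ * δ / R, by positivity, 1 / (1100 * Q ^ 4), by positivity, ?_, ?_⟩
  · rw [div_le_one (by positivity)]
    linarith
  intro α₀ η hα1 hα2 hη hηη
  have hα0 : 0 < α₀ := lt_of_lt_of_le (by positivity) hα1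
  have hη' : η * (1100 * Q ^ 4) ≤ 1 := by
    rwa [le_div_iff₀ (by positivity)] at hηη
  have hη1 : η ≤ 1 := hηη.trans (by rw [div_le_one (by positivity)]; linarith)
  have hαQ : 1 / Q ≤ α₀ := (one_div_le_one_div_of_le hR0 hQR).trans hα1
  obtain ⟨hk1, hk2⟩ := rpow_bounds (κ := κ) hR hα1 hα2
  set ρ := γ * α₀ ^ κ with hρ
  have hρ1 : ρ ≤ Q := (mul_le_mul_of_nonneg_left hk1 hγ.le).trans hQ5
  have hρ2 : 1 / Q ≤ ρ := by
    have h1 : γ * Rk⁻¹ ≤ ρ := mul_le_mul_of_nonneg_left hk2 hγ.le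
    refine le_trans ?_ h1
    rw [div_le_iff₀ hQ0]
    rw [div_le_iff₀ hγ] at hQ6
    have h2 : γ * Rk⁻¹ * Q = Q * γ / Rk := by ring
    rw [h2, le_div_iff₀ hRk0]
    linarith
  set s := κ * (1 / 2 - (a : ℝ)) / α₀ - (1 / 2 - (b : ℝ)) / ρ with hs
  have e1 : ∀ᶠ N : ℕ in atTop, 100 * Q * (26 * Q ^ 5 + 2 * Q ^ 2 * (1 + |s|)) ≤ (N : ℝ) :=
    tendsto_natCast_atTop_atTop.eventually (eventually_ge_atTop _)
  have e2 : ∀ᶠ N : ℕ in atTop, |s| ≤ (N : ℝ) :=
    tendsto_natCast_atTop_atTop.eventually (eventually_ge_atTop _)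
  have e3 : ∀ᶠ N : ℕ in atTop, 5 * Q * (Q + 1) / η ≤ (N : ℝ) :=
    tendsto_natCast_atTop_atTop.eventually (eventually_ge_atTop _)
  filter_upwards [hcnt δ η (η / R) hδ0 hδ1 hη hη1 (by positivity), e1, e2, e3, eventually_ge_atTop 3] with
    N hN1 hN2 hN3 hN4 hN5 G hFam
  have hG : ∀ n ∈ G, N < n ∧ (n : ℝ) ≤ (1 + η) * N := (hPW h hh η hη hη1).1 N G hFam
  have hNr : (3 : ℝ) ≤ N := by exact_mod_cast hN5
  have hN0 : (0 : ℝ) < N := by linarith
  have hlog : 0 < Real.log N := Real.log_pos (by linarith)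
  have hG2 : ∀ n ∈ G, N < n ∧ n ≤ 2 * N := by
    intro n hn
    refine ⟨(hG n hn).1, ?_⟩
    have h1 : (n : ℝ) ≤ 2 * N := (hG n hn).2.trans (by nlinarith)
    exact_mod_cast h1
  set φ := Real.log γ + s / N with hφ
  set y₁ := α₀ * N * (1 + 1.2 * η) with hy₁
  set y₂ := α₀ * N * (1 + 2.8 * η) with hy₂
  have hαN : 0 < α₀ * N := by positivity
  have hη0' : η / R * N ≤ 1.6 * (α₀ * N * η) := by
    have h1 : η / R * N = 1 / R * (N * η) := by ring
    rw [h1]
    have h2 : 1 / R * (N * η) ≤ α₀ * (N * η) := mul_le_mul_of_nonneg_right hα1 (by positivity)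
    have h3 : 0 ≤ α₀ * (N * η) := by positivity
    linarith
  have hcn := hN1 G hFam φ y₁ y₂ ?_ ?_ ?_ ?_
  rotate_left
  · rw [hφ]
    refine (abs_add_le _ _).trans ?_
    have : |s / N| ≤ 1 := by
      rw [abs_div, abs_of_pos hN0, div_le_one hN0]
      exact hN3
    linarith
  · rw [hy₁]
    have h1 : (N : ℝ) / (|Real.log γ| + 1 + 4 * R) ≤ N / R :=
      div_le_div_of_nonneg_left hN0.le hR0 (by have := abs_nonneg (Real.log γ); linarith)
    refine h1.trans ?_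
    have h2 : (N : ℝ) / R = 1 / R * N := by ring
    rw [h2]
    have h3 : 1 / R * N ≤ α₀ * N := mul_le_mul_of_nonneg_right hα1 hN0.le
    have h4 : 0 ≤ α₀ * N * (1.2 * η) := by positivity
    linarith
  · rw [hy₁, hy₂]
    linarith
  · rw [hy₂]
    have h1 : α₀ * N * (1 + 2.8 * η) ≤ R * N * 4 := by
      refine mul_le_mul (mul_le_mul_of_nonneg_right hα2 hN0.le) (by linarith) (by positivity)
        (by positivity)
    have h2 : 0 ≤ (|Real.log γ| + 1) * N := by positivity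
    linarith
  set P := prsG κ φ δ y₁ y₂ N G with hP
  have hPmem : ∀ x ∈ P, x.1 ∈ G ∧ x.2.Prime ∧ y₁ < x.2 ∧ (x.2 : ℝ) ≤ y₂ ∧
      ∃ r : ℕ, r.Prime ∧
        |φ + κ * Real.log x.2 + (1 - κ) * Real.log x.1 - Real.log r| ≤ δ / N := by
    intro x hx
    rw [hP, prsG, Finset.mem_filter, Finset.mem_product, prs, Finset.mem_filter,
      Finset.mem_Icc] at hx
    obtain ⟨⟨h1, ⟨h2, h3⟩, h4, h5⟩, h6⟩ := hx
    refine ⟨h1, h4, h5, ?_, h6⟩
    exact (Nat.le_floor_iff (by positivity)).1 h3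
  have hshift : Q + 1 ≤ 0.2 * (α₀ * N * η) := by
    have h1 : 5 * Q * (Q + 1) ≤ N * η := by
      rwa [div_le_iff₀ hη] at hN4
    have h2 : 1 / Q * (N * η) ≤ α₀ * (N * η) := mul_le_mul_of_nonneg_right hαQ (by positivity)
    have h3 : 5 * (Q + 1) ≤ 1 / Q * (N * η) := by
      rw [div_mul_eq_mul_div, one_mul, le_div_iff₀ hQ0]
      linarith
    linarith
  have hmain := int_II (κ := κ) (γ := γ) (a := a) (b := b) (G := G) (d := d) hd0
    (by linarith) (P := P) (α₁ := α₀) (α₂ := α₀ * (1 + 3 * η)) (N := N) (by omega)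
    (fun x hx => ⟨(hPmem x hx).1, hG2 _ (hPmem x hx).1⟩) ?_ ?_
  · refine le_trans ?_ hmain
    have h1 : d * (c₀ * δ * (y₂ - y₁) * G.card / Real.log N ^ 2) / N ≤ d * P.card / N := by
      gcongr
    refine le_trans ?_ h1
    have h2 : y₂ - y₁ = 1.6 * (α₀ * N * η) := by rw [hy₁, hy₂]; ring
    rw [h2]
    have h3 : d * (c₀ * δ * (1.6 * (α₀ * N * η)) * G.card / Real.log N ^ 2) / N =
        1.6 * α₀ * (d * c₀ * δ * η * G.card / Real.log N ^ 2) := by
      field_simp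
    have h4 : d * c₀ * δ / R * η * G.card / Real.log N ^ 2 =
        1 / R * (d * c₀ * δ * η * G.card / Real.log N ^ 2) := by ring
    rw [h3, h4]
    refine mul_le_mul_of_nonneg_right ?_ (by positivity)
    linarith
  · intro x hx α hα
    obtain ⟨h1, h2, h3, h4, -⟩ := hPmem x hx
    have hn1 : (N : ℝ) < x.1 := by exact_mod_cast (hG _ h1).1
    have hn2 := (hG _ h1).2
    have hn0 : (0 : ℝ) < x.1 := by linarith
    obtain ⟨ha1, ha2⟩ := abs_le.1 hQa
    constructor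
    · refine le_trans ?_ hα.1
      rw [le_div_iff₀ hn0]
      have h5 : α₀ * x.1 ≤ α₀ * ((1 + η) * N) := mul_le_mul_of_nonneg_left hn2 hα0.le
      linarith
    · refine hα.2.trans ?_
      rw [div_le_iff₀ hn0]
      have h5 : α₀ * (1 + 3 * η) * N ≤ α₀ * (1 + 3 * η) * x.1 :=
        mul_le_mul_of_nonneg_left hn1.le (by positivity)
      linarith
  · intro x hx α hα
    obtain ⟨h1, h2, h3, h4, r, hr, h5⟩ := hPmem x hx
    have hn1 : (N : ℝ) < x.1 := by exact_mod_cast (hG _ h1).1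
    have hn2 := (hG _ h1).2
    have hn0 : (0 : ℝ) < x.1 := by linarith
    have hxpos : 0 < x.1 := by exact_mod_cast hn0
    have ht := mem_II hxpos hα
    set t := α * x.1 - ((x.2 : ℝ) - a + 1 / 2) with htd
    have hαt : α = ((x.2 : ℝ) - a + 1 / 2 + t) / x.1 := by
      rw [htd]
      field_simp
      ring
    have hr0 : (0 : ℝ) < r := by exact_mod_cast hr.pos
    have hnear := near (κ := κ) (γ := γ) (a := a) (b := b) (Q := Q) (η := η) (α₀ := α₀) (ρ := ρ)
      (s := s) (N := N) (n := x.1) (p := x.2) (r := r) (t := t) hQ hQκ hQκ' hQa hQb hγ hαQ hρ hρ1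
      hρ2 hη hη' hs hN2 hn1 hn2 h3 h4 hr0 h5 ht
    rw [← hαt] at hnear
    constructor
    · have hfl : ⌊α * x.1⌋ = (x.2 : ℤ) - a := by
        rw [Int.floor_eq_iff]
        obtain ⟨t1, t2⟩ := abs_le.1 ht
        push_cast
        constructor <;> linarith
      rw [hfl]
      unfold PP
      have : ((x.2 : ℤ) - a + a).toNat = x.2 := by
        rw [sub_add_cancel]
        exact Int.toNat_natCast _
      rw [this]
      exact h2
    · have hfl : ⌊γ * α ^ κ * x.1⌋ = (r : ℤ) - b := by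
        rw [Int.floor_eq_iff]
        obtain ⟨t1, t2⟩ := abs_lt.1 hnear
        push_cast
        constructor <;> linarith
      rw [hfl]
      unfold PP
      have : ((r : ℤ) - b + b).toNat = r := by
        rw [sub_add_cancel]
        exact Int.toNat_natCast _
      rw [this]
      exact hr

end Pool.Agent.D0H35.CP
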